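import Pool.Agent.Helper96.BV.TLS

/-!
# Project BV, module BV-13: primitive characters of large conductor
-/

set_option autoImplicit false

open Finset
open Pool.Agent.Helper18.BV

namespace Pool.Agent.Helper96.BV

theorem card_divisors_le_two_sqrt (n : ℕ) : n.divisors.card ≤ 2 * Nat.sqrt n := by
  classical
  have h1 : n.divisors ⊆ Icc 1 (Nat.sqrt n) ∪ (Icc 1 (Nat.sqrt n)).image (fun d => n / d) := by
    intro d hd
    rw [Nat.mem_divisors] at hd
    obtain ⟨⟨e, he⟩, hn⟩ := hd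
    have hd0 : 0 < d := Nat.pos_of_ne_zero (by rintro rfl; simp at he; omega)
    have he0 : 0 < e := Nat.pos_of_ne_zero (by rintro rfl; simp at he; omega)
    rw [Finset.mem_union, Finset.mem_image]
    by_cases h : d ≤ Nat.sqrt n
    · left; exact Finset.mem_Icc.2 ⟨hd0, h⟩
    · right
      refine ⟨e, Finset.mem_Icc.2 ⟨he0, ?_⟩, ?_⟩
      · by_contra h'
        have h2 : Nat.sqrt n + 1 ≤ d := by omega
        have h3 : Nat.sqrt n + 1 ≤ e := by omega
        have h4 := Nat.mul_le_mul h2 h3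
        have h5 := Nat.lt_succ_sqrt n
        simp only [Nat.succ_eq_add_one] at h5
        omega
      · rw [he]; exact Nat.mul_div_cancel _ he0
  refine (Finset.card_le_card h1).trans ((Finset.card_union_le _ _).trans ?_)
  have h2 : ((Icc 1 (Nat.sqrt n)).image (fun d => n / d)).card ≤ (Icc 1 (Nat.sqrt n)).card :=
    Finset.card_image_le
  rw [Nat.card_Icc] at *
  omega

theorem le_totient (q : ℕ) : (q : ℝ) ≤ 2 * Real.sqrt q * q.totient := by
  have h1 : q ≤ q.divisors.card * q.totient := by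
    rcases Nat.eq_zero_or_pos q with h0 | h0
    · subst h0; simp
    conv_lhs => rw [← Nat.sum_totient q]
    rw [← smul_eq_mul]
    apply Finset.sum_le_card_nsmul
    intro d hd
    exact Nat.le_of_dvd (Nat.totient_pos.2 h0) (Nat.totient_dvd_of_dvd (Nat.dvd_of_mem_divisors hd))
  have h2 : (q.divisors.card : ℝ) ≤ 2 * Real.sqrt q := by
    have h3 : (q.divisors.card : ℝ) ≤ ((2 * Nat.sqrt q : ℕ) : ℝ) := by
      exact_mod_cast card_divisors_le_two_sqrt q
    push_cast at h3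
    have h4 : ((Nat.sqrt q : ℕ) : ℝ) ≤ Real.sqrt q := Real.nat_sqrt_le_real_sqrt
    linarith
  have h3 : (q : ℝ) ≤ q.divisors.card * q.totient := by exact_mod_cast h1
  exact h3.trans (mul_le_mul_of_nonneg_right h2 (Nat.cast_nonneg _))

theorem inv_totient_le {q : ℕ} (hq : 0 < q) : 1 / (q.totient : ℝ) ≤ 2 / Real.sqrt q := by
  have h1 := le_totient q
  have h2 : (0 : ℝ) < q := by exact_mod_cast hq
  have h3 : (0 : ℝ) < q.totient := by exact_mod_cast Nat.totient_pos.2 hq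
  have h4 : 0 < Real.sqrt q := Real.sqrt_pos.2 h2
  rw [div_le_div_iff₀ h3 h4]
  have h5 : Real.sqrt q * Real.sqrt q = q := Real.mul_self_sqrt h2.le
  nlinarith

theorem SS_add (f f' : ArithmeticFunction ℂ) (g : ℝ → ℝ) (x : ℝ) {q : ℕ}
    (χ : DirichletCharacter ℂ q) :
    SS (f + f' : ArithmeticFunction ℂ) g x χ = SS f g x χ + SS f' g x χ := by
  unfold SS
  rw [← Finset.sum_add_distrib]
  refine Finset.sum_congr rfl (fun n _ => ?_)
  rw [ArithmeticFunction.add_apply]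
  ring

theorem SS_sub (f f' : ArithmeticFunction ℂ) (g : ℝ → ℝ) (x : ℝ) {q : ℕ}
    (χ : DirichletCharacter ℂ q) :
    SS (f - f' : ArithmeticFunction ℂ) g x χ = SS f g x χ - SS f' g x χ := by
  unfold SS
  rw [← Finset.sum_sub_distrib]
  refine Finset.sum_congr rfl (fun n _ => ?_)
  have h : (f - f' : ArithmeticFunction ℂ) n = f n - f' n := by
    have h0 : (f - f' + f' : ArithmeticFunction ℂ) n = f n := by rw [sub_add_cancel]
    rw [ArithmeticFunction.add_apply] at h0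
    rw [← h0]
    ring
  rw [h]
  ring

theorem wt_eq_zero_of_small {g : ℝ → ℝ} (hg : IsWt g) {x : ℝ} (hx : 3 ≤ x) {n : ℕ}
    (hn : (n : ℝ) ≤ x ^ (1 / 10 : ℝ)) : wt g x n = 0 := by
  rcases Nat.eq_zero_or_pos n with h0 | h0
  · subst h0; unfold wt; simp
  have hl : 0 < Real.log x := Real.log_pos (by linarith)
  have hn0 : (0 : ℝ) < n := by exact_mod_cast h0
  have h1 : Real.log n ≤ (1 / 10) * Real.log x := by
    rw [← Real.log_rpow (by linarith)]
    exact Real.log_le_log hn0 hn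
  have h4 : g (Real.log n / Real.log x) = 0 := by
    apply image_eq_zero_of_notMem_tsupport
    intro h
    have h5 := (hg.supp h).1
    rw [lt_div_iff₀ hl] at h5
    linarith
  unfold wt
  rw [h4, zero_div]

theorem SS_lo {g : ℝ → ℝ} (hg : IsWt g) {x : ℝ} (hx : 3 ≤ x) {V : ℕ}
    (hV : (V : ℝ) ≤ x ^ (1 / 10 : ℝ)) (f : ArithmeticFunction ℂ) {q : ℕ}
    (χ : DirichletCharacter ℂ q) : SS (lo V f) g x χ = 0 := by
  unfold SS
  refine Finset.sum_eq_zero (fun n _ => ?_)
  rw [lo_apply]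
  by_cases h : n ≤ V
  · have h1 : (n : ℝ) ≤ x ^ (1 / 10 : ℝ) := le_trans (by exact_mod_cast h) hV
    rw [wt_eq_zero_of_small hg hx h1]
    simp
  · rw [if_neg h]; simp

theorem ne_one_of_prim {q : ℕ} (hq : 1 < q) {χ : DirichletCharacter ℂ q} (hχ : χ ∈ prim q) :
    χ ≠ 1 := by
  rintro rfl
  have : NeZero q := ⟨by omega⟩
  rw [mem_prim, DirichletCharacter.isPrimitive_def, DirichletCharacter.conductor_one] at hχ
  omega

/-- Module BV-13. -/
theorem large (h1 : VaughanId) (h2 : CoefFacts) (h3 : TypeOne) (h4 : TypeTwo) : Large := by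
  intro g hg A hA
  obtain ⟨C3, hC3, h3'⟩ := h3 g hg
  obtain ⟨C4, hC4, h4'⟩ := h4 g hg
  -- choice of X0
  have hev : ∀ᶠ x : ℝ in Filter.atTop, Real.log x ^ (A + 2) ≤ x ^ (1 / 4 : ℝ) := by
    have h := isLittleO_log_rpow_rpow_atTop (A + 2) (by norm_num : (0 : ℝ) < 1 / 4)
    have h' := h.bound (by norm_num : (0 : ℝ) < 1)
    filter_upwards [h', Filter.eventually_ge_atTop (1 : ℝ)] with x hx hx1
    rw [one_mul, Real.norm_of_nonneg (Real.rpow_nonneg (Real.log_nonneg hx1) _),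
      Real.norm_of_nonneg (Real.rpow_nonneg (by linarith) _)] at hx
    exact hx
  obtain ⟨X1, hX1⟩ := Filter.eventually_atTop.1 hev
  refine ⟨2 * (A + 3), 2 * C3 + 2 * C4, max 3 X1, by positivity, by positivity,
    le_max_left _ _, ?_⟩
  intro x hx
  have hx3 : 3 ≤ x := (le_max_left _ _).trans hx
  have hxe := hX1 x ((le_max_right _ _).trans hx)
  set l := Real.log x with hl
  have hx0 : 0 < x := by linarith
  have hl1 : 1 ≤ l := by
    rw [hl, Real.le_log_iff_exp_le (by linarith)]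
    have := Real.exp_one_lt_d9
    linarith
  have hl0 : 0 < l := by linarith
  set Q := ⌊x ^ (1 / 40 : ℝ)⌋₊ with hQ
  have hx40 : 1 ≤ x ^ (1 / 40 : ℝ) := Real.one_le_rpow (by linarith) (by norm_num)
  have hQ1 : 1 ≤ Q := Nat.le_floor (by simpa using hx40)
  have hQx : (Q : ℝ) ≤ x ^ (1 / 40 : ℝ) := Nat.floor_le (by positivity)
  have hQ0 : (0 : ℝ) ≤ Q := Nat.cast_nonneg _
  set U := Q ^ 4 with hU
  have hUx : (U : ℝ) ≤ x ^ (1 / 10 : ℝ) := by
    rw [hU]
    push_cast
    calc (Q : ℝ) ^ 4 ≤ (x ^ (1 / 40 : ℝ)) ^ 4 := pow_le_pow_left₀ hQ0 hQx 4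
      _ = x ^ (1 / 10 : ℝ) := by
        rw [← Real.rpow_natCast, ← Real.rpow_mul hx0.le]; norm_num
  have hU0 : (0 : ℝ) ≤ U := Nat.cast_nonneg _
  have hU1 : 1 ≤ U := Nat.one_le_pow _ _ hQ1
  have hUUx : (U : ℝ) * U ≤ x ^ (1 / 5 : ℝ) := by
    calc (U : ℝ) * U ≤ x ^ (1 / 10 : ℝ) * x ^ (1 / 10 : ℝ) :=
          mul_le_mul hUx hUx hU0 (by positivity)
      _ = x ^ (1 / 5 : ℝ) := by rw [← Real.rpow_add hx0]; norm_num
  have hUU1 : (1 : ℝ) ≤ (U : ℝ) * U := by
    have : (1 : ℝ) ≤ U := by exact_mod_cast hU1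
    nlinarith
  have hUle : (U : ℝ) ≤ (U : ℝ) * U := by
    have : (1 : ℝ) ≤ U := by exact_mod_cast hU1
    nlinarith
  -- Vaughan
  have hV := h1 U U zeC muC LaC h2.inv h2.log
  set b : ArithmeticFunction ℂ := hi U LaC * zeC with hb
  set a : ArithmeticFunction ℂ := hi U muC with ha
  have hT2 := h4' x hx3 Q U U hQ1 le_rfl le_rfl a b
    (by intro n hn; rw [ha, hi_apply, if_pos hn])
    (by intro n hn; exact h2.hi_mul_zero U n hn)
    (by
      intro n
      rw [ha, hi_apply]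
      split_ifs
      · simp
      · exact h2.mu_le n)
    (by
      intro n hn
      refine (h2.hi_mul_le U n).trans ?_
      rcases Nat.eq_zero_or_pos n with h0 | h0
      · subst h0; simp; linarith
      · exact Real.log_le_log (by exact_mod_cast h0) hn)
  -- pointwise estimate
  have hpt : ∀ q : ℕ, 1 < q → ∀ χ ∈ prim q, ‖SS LaC g x χ‖ ≤
      2 * (C3 * q * (x ^ (1 / 5 : ℝ)) * l ^ 2 * x ^ (-(1 / 2) : ℝ)) +
        ‖SS (a * b : ArithmeticFunction ℂ) g x χ‖ := by
    intro q hq χ hχ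
    have hq0 : NeZero q := ⟨by omega⟩
    have hne := ne_one_of_prim hq hχ
    have hq0' : (0 : ℝ) ≤ q := Nat.cast_nonneg _
    have hxh : 0 ≤ x ^ (-(1 / 2) : ℝ) := by positivity
    have e1 : ‖SS (lo U muC * D zeC : ArithmeticFunction ℂ) g x χ‖ ≤
        C3 * q * (x ^ (1 / 5 : ℝ)) * l ^ 2 * x ^ (-(1 / 2) : ℝ) := by
      have h5 := (h3' x hx3 q χ hne U (lo U muC) 1 (by
        intro m hm
        rw [lo_apply, if_pos hm]
        exact h2.mu_le m) (by
        intro m hm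
        rw [lo_apply, if_neg (by omega)])).2
      refine h5.trans ?_
      apply mul_le_mul_of_nonneg_right _ hxh
      have h6 : (U : ℝ) * 1 * l ≤ x ^ (1 / 5 : ℝ) * l ^ 2 := by
        calc (U : ℝ) * 1 * l ≤ x ^ (1 / 5 : ℝ) * l := by
              rw [mul_one]
              exact mul_le_mul_of_nonneg_right (hUle.trans hUUx) hl0.le
          _ ≤ x ^ (1 / 5 : ℝ) * l ^ 2 := by
              apply mul_le_mul_of_nonneg_left _ (by positivity)
              nlinarith
      calc C3 * q * U * 1 * l = C3 * q * (U * 1 * l) := by ring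
        _ ≤ C3 * q * (x ^ (1 / 5 : ℝ) * l ^ 2) := mul_le_mul_of_nonneg_left h6 (by positivity)
        _ = _ := by ring
    have e2 : ‖SS (lo U muC * lo U LaC * zeC : ArithmeticFunction ℂ) g x χ‖ ≤
        C3 * q * (x ^ (1 / 5 : ℝ)) * l ^ 2 * x ^ (-(1 / 2) : ℝ) := by
      have h5 := (h3' x hx3 q χ hne (U * U) (lo U muC * lo U LaC) l (by
        intro m hm
        refine (h2.lo_mul_lo_le U U m).trans ?_
        rcases Nat.eq_zero_or_pos m with h0 | h0
        · subst h0; simp; linarith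
        · apply Real.log_le_log (by exact_mod_cast h0)
          have h6 : (m : ℝ) ≤ (U : ℝ) * U := by exact_mod_cast hm
          refine h6.trans (hUUx.trans ?_)
          calc x ^ (1 / 5 : ℝ) ≤ x ^ (1 : ℝ) :=
                Real.rpow_le_rpow_of_exponent_le (by linarith) (by norm_num)
            _ = x := Real.rpow_one x) (by
        intro m hm
        exact h2.lo_mul_lo_zero U U m hm)).1
      refine h5.trans ?_
      apply mul_le_mul_of_nonneg_right _ hxh
      push_cast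
      calc C3 * q * (U * U) * l * l = C3 * q * ((U * U) * l ^ 2) := by ring
        _ ≤ C3 * q * (x ^ (1 / 5 : ℝ) * l ^ 2) := by
            apply mul_le_mul_of_nonneg_left _ (by positivity)
            exact mul_le_mul_of_nonneg_right hUUx (by positivity)
        _ = _ := by ring
    have e3 : SS LaC g x χ = SS (lo U muC * D zeC : ArithmeticFunction ℂ) g x χ -
        SS (lo U muC * lo U LaC * zeC : ArithmeticFunction ℂ) g x χ +
        SS (a * b : ArithmeticFunction ℂ) g x χ := by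
      conv_lhs => rw [hV]
      rw [SS_add, SS_sub, SS_add, SS_lo hg hx3 hUx, zero_add]
    rw [e3]
    calc _ ≤ ‖SS (lo U muC * D zeC : ArithmeticFunction ℂ) g x χ -
          SS (lo U muC * lo U LaC * zeC : ArithmeticFunction ℂ) g x χ‖ +
          ‖SS (a * b : ArithmeticFunction ℂ) g x χ‖ := norm_add_le _ _
      _ ≤ _ := by
          have := norm_sub_le (SS (lo U muC * D zeC : ArithmeticFunction ℂ) g x χ)
            (SS (lo U muC * lo U LaC * zeC : ArithmeticFunction ℂ) g x χ)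
          linarith
  -- sum over q
  have hlB1 : 1 ≤ l ^ (2 * (A + 3)) := Real.one_le_rpow hl1 (by positivity)
  have hq_facts : ∀ q ∈ Ioc ⌊l ^ (2 * (A + 3))⌋₊ Q, 1 < q ∧ q ≤ Q ∧
      l ^ (2 * (A + 3)) < q := by
    intro q hq
    rw [Finset.mem_Ioc] at hq
    have h5 : 1 ≤ ⌊l ^ (2 * (A + 3))⌋₊ := Nat.le_floor (by simpa using hlB1)
    exact ⟨by omega, hq.2, Nat.lt_of_floor_lt hq.1⟩
  have hterm : ∀ q ∈ Ioc ⌊l ^ (2 * (A + 3))⌋₊ Q,
      (1 / (q.totient : ℝ)) * ∑ χ ∈ prim q, ‖SS LaC g x χ‖ ≤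
      2 * (C3 * x ^ (1 / 40 : ℝ) * (x ^ (1 / 5 : ℝ)) * l ^ 2 * x ^ (-(1 / 2) : ℝ)) +
        2 * l ^ (-(A + 3)) * ∑ χ ∈ prim q, ‖SS (a * b : ArithmeticFunction ℂ) g x χ‖ := by
    intro q hq
    obtain ⟨hq1, hqQ, hqB⟩ := hq_facts q hq
    have hq0 : NeZero q := ⟨by omega⟩
    have hφ : (0 : ℝ) < q.totient := by exact_mod_cast Nat.totient_pos.2 (by omega : 0 < q)
    set E : ℝ := 2 * (C3 * q * (x ^ (1 / 5 : ℝ)) * l ^ 2 * x ^ (-(1 / 2) : ℝ)) with hE
    have hE0 : 0 ≤ E := by positivity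
    have h5 : ∑ χ ∈ prim q, ‖SS LaC g x χ‖ ≤ q.totient * E +
        ∑ χ ∈ prim q, ‖SS (a * b : ArithmeticFunction ℂ) g x χ‖ := by
      calc ∑ χ ∈ prim q, ‖SS LaC g x χ‖
          ≤ ∑ χ ∈ prim q, (E + ‖SS (a * b : ArithmeticFunction ℂ) g x χ‖) :=
            Finset.sum_le_sum (fun χ hχ => hpt q hq1 χ hχ)
        _ = (prim q).card * E + ∑ χ ∈ prim q, ‖SS (a * b : ArithmeticFunction ℂ) g x χ‖ := by
            rw [Finset.sum_add_distrib]; simp
        _ ≤ _ := by
            have : ((prim q).card : ℝ) ≤ q.totient := by exact_mod_cast card_prim_le q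
            have := mul_le_mul_of_nonneg_right this hE0
            linarith
    have hsum0 : 0 ≤ ∑ χ ∈ prim q, ‖SS (a * b : ArithmeticFunction ℂ) g x χ‖ :=
      Finset.sum_nonneg (fun _ _ => norm_nonneg _)
    have h6 : 1 / (q.totient : ℝ) ≤ 2 * l ^ (-(A + 3)) := by
      refine (inv_totient_le (by omega : 0 < q)).trans ?_
      have h7 : l ^ (A + 3) ≤ Real.sqrt q := by
        rw [Real.le_sqrt (by positivity) (by positivity), ← Real.rpow_natCast, ← Real.rpow_mul hl0.le]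
        have : (A + 3) * ((2 : ℕ) : ℝ) = 2 * (A + 3) := by push_cast; ring
        rw [this]
        exact hqB.le
      rw [Real.rpow_neg hl0.le, ← div_eq_mul_inv]
      exact div_le_div_of_nonneg_left (by norm_num) (by positivity) h7
    calc (1 / (q.totient : ℝ)) * ∑ χ ∈ prim q, ‖SS LaC g x χ‖
        ≤ (1 / (q.totient : ℝ)) * (q.totient * E +
          ∑ χ ∈ prim q, ‖SS (a * b : ArithmeticFunction ℂ) g x χ‖) :=
          mul_le_mul_of_nonneg_left h5 (by positivity)
      _ = E + (1 / (q.totient : ℝ)) *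
          ∑ χ ∈ prim q, ‖SS (a * b : ArithmeticFunction ℂ) g x χ‖ := by
          field_simp
      _ ≤ _ := by
          apply add_le_add
          · rw [hE]
            have h8 : (q : ℝ) ≤ x ^ (1 / 40 : ℝ) := le_trans (by exact_mod_cast hqQ) hQx
            have h9 : C3 * (q : ℝ) ≤ C3 * x ^ (1 / 40 : ℝ) := mul_le_mul_of_nonneg_left h8 hC3.le
            have h10 : 0 ≤ (x ^ (1 / 5 : ℝ)) * l ^ 2 * x ^ (-(1 / 2) : ℝ) := by positivity
            have := mul_le_mul_of_nonneg_right h9 h10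
            nlinarith
          · exact mul_le_mul_of_nonneg_right h6 hsum0
  have hsub : Ioc ⌊l ^ (2 * (A + 3))⌋₊ Q ⊆ Icc 1 Q := by
    intro q hq
    rw [Finset.mem_Ioc] at hq
    exact Finset.mem_Icc.2 ⟨by omega, hq.2⟩
  set E' : ℝ := 2 * (C3 * x ^ (1 / 40 : ℝ) * (x ^ (1 / 5 : ℝ)) * l ^ 2 * x ^ (-(1 / 2) : ℝ))
    with hE'
  have hE'0 : 0 ≤ E' := by positivity
  clear_value E'
  calc ∑ q ∈ Ioc ⌊l ^ (2 * (A + 3))⌋₊ Q, (1 / (q.totient : ℝ)) * ∑ χ ∈ prim q, ‖SS LaC g x χ‖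
      ≤ ∑ q ∈ Ioc ⌊l ^ (2 * (A + 3))⌋₊ Q, (E' +
        2 * l ^ (-(A + 3)) * ∑ χ ∈ prim q, ‖SS (a * b : ArithmeticFunction ℂ) g x χ‖) :=
        Finset.sum_le_sum hterm
    _ ≤ ∑ q ∈ Icc 1 Q, (E' +
        2 * l ^ (-(A + 3)) * ∑ χ ∈ prim q, ‖SS (a * b : ArithmeticFunction ℂ) g x χ‖) := by
        refine Finset.sum_le_sum_of_subset_of_nonneg hsub (fun q _ _ => ?_)
        have : 0 ≤ ∑ χ ∈ prim q, ‖SS (a * b : ArithmeticFunction ℂ) g x χ‖ :=
          Finset.sum_nonneg (fun _ _ => norm_nonneg _)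
        positivity
    _ = Q * E' + 2 * l ^ (-(A + 3)) *
        ∑ q ∈ Icc 1 Q, ∑ χ ∈ prim q, ‖SS (a * b : ArithmeticFunction ℂ) g x χ‖ := by
        rw [Finset.sum_add_distrib, ← Finset.mul_sum, Finset.sum_const, Nat.card_Icc,
          nsmul_eq_mul]
        norm_num
    _ ≤ x ^ (1 / 40 : ℝ) * E' + 2 * l ^ (-(A + 3)) * (C4 * l ^ 3) := by
        apply add_le_add
        · exact mul_le_mul_of_nonneg_right hQx hE'0
        · exact mul_le_mul_of_nonneg_left hT2 (by positivity)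
    _ ≤ 2 * C3 * l ^ (-A) + 2 * C4 * l ^ (-A) := by
        apply add_le_add
        · have h5 : x ^ (1 / 40 : ℝ) * E' = 2 * C3 * (x ^ (-(1 / 4) : ℝ) * l ^ 2) := by
            rw [hE']
            have h6 : x ^ (-(1 / 4) : ℝ) = x ^ (1 / 40 : ℝ) * x ^ (1 / 40 : ℝ) *
                x ^ (1 / 5 : ℝ) * x ^ (-(1 / 2) : ℝ) := by
              rw [← Real.rpow_add hx0, ← Real.rpow_add hx0, ← Real.rpow_add hx0]
              norm_num
            rw [h6]; ring
          rw [h5]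
          apply mul_le_mul_of_nonneg_left _ (by positivity)
          rw [Real.rpow_neg hx0.le, Real.rpow_neg hl0.le]
          have h7 : 0 < x ^ (1 / 4 : ℝ) := by positivity
          have h8 : 0 < l ^ A := by positivity
          rw [inv_mul_le_iff₀ h7, ← div_eq_mul_inv, le_div_iff₀ h8]
          calc l ^ 2 * l ^ A = l ^ (A + 2) := by
                rw [Real.rpow_add hl0, mul_comm]; norm_num
            _ ≤ _ := hxe
        · have h5 : l ^ (-(A + 3)) * l ^ 3 = l ^ (-A) := by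
            rw [← Real.rpow_natCast l 3, ← Real.rpow_add hl0]
            congr 1; push_cast; ring
          have h6 : 2 * l ^ (-(A + 3)) * (C4 * l ^ 3) = 2 * C4 * (l ^ (-(A + 3)) * l ^ 3) := by ring
          rw [h6, h5]
    _ = (2 * C3 + 2 * C4) / l ^ A := by
        rw [Real.rpow_neg hl0.le]; ring

end Pool.Agent.Helper96.BV
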