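import Pool.Agent.Helper18.BV.St

/-!
# Project BV, module BV-9: weak large sieve with logarithmic weights
-/

set_option autoImplicit false

open Finset
open Pool.Agent.Helper18.BV

namespace Pool.Agent.Helper96.BV

/-- Sum over a full period. -/
theorem sum_period {M : ℕ} [NeZero M] (f : ZMod M → ℂ) (c : ℕ) :
    ∑ i ∈ range M, f ((c + i : ℕ) : ZMod M) = ∑ z : ZMod M, f z := by
  refine Finset.sum_bij' (fun i _ => ((c + i : ℕ) : ZMod M)) (fun z _ => (z - (c : ZMod M)).val)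
    ?_ ?_ ?_ ?_ ?_
  · intro a _; exact Finset.mem_univ _
  · intro z _
    exact Finset.mem_range.2 (ZMod.val_lt _)
  · intro i hi
    have hi' := Finset.mem_range.1 hi
    push_cast
    rw [add_sub_cancel_left]
    exact ZMod.val_cast_of_lt hi'
  · intro z _
    push_cast
    rw [ZMod.natCast_zmod_val]
    ring
  · intro i _; rfl

/-- Interval sums of a nonprincipal character are bounded by the modulus. -/
theorem char_interval {M : ℕ} [NeZero M] (ψ : DirichletCharacter ℂ M) (hψ : ψ ≠ 1) (c : ℕ) :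
    ∀ n : ℕ, ‖∑ i ∈ range n, ψ ((c + i : ℕ) : ZMod M)‖ ≤ M := by
  intro n
  induction n using Nat.strong_induction_on with
  | _ n ih =>
    rcases Nat.lt_or_ge n M with h | h
    · calc ‖∑ i ∈ range n, ψ ((c + i : ℕ) : ZMod M)‖ ≤ ∑ i ∈ range n, ‖ψ ((c + i : ℕ) : ZMod M)‖ :=
            norm_sum_le _ _
        _ ≤ ∑ i ∈ range n, (1 : ℝ) := Finset.sum_le_sum (fun i _ => ψ.norm_le_one _)
        _ = n := by simp
        _ ≤ M := by exact_mod_cast h.le
    · have hM : 0 < M := Nat.pos_of_ne_zero (NeZero.ne M)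
      obtain ⟨k, rfl⟩ : ∃ k, n = k + M := ⟨n - M, by omega⟩
      have h0 : ∑ i ∈ range M, ψ ((c + (k + i) : ℕ) : ZMod M) = 0 := by
        have h1 := sum_period (fun z => ψ z) (c + k)
        have h2 : ∑ z : ZMod M, ψ z = 0 := MulChar.sum_eq_zero_of_ne_one hψ
        rw [h2] at h1
        rw [← h1]
        refine Finset.sum_congr rfl (fun i _ => ?_)
        rw [show c + (k + i) = c + k + i by ring]
      rw [Finset.sum_range_add, h0, add_zero]
      exact ih k (by omega)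

/-- Abel summation with the weights `1/m`. -/
theorem abel_bound (f : ℕ → ℂ) (U : ℕ) (K : ℝ) (hK : ∀ n : ℕ, ‖∑ m ∈ Ioc U n, f m‖ ≤ K)
    (N : ℕ) (hN : U + 1 ≤ N) :
    ‖∑ m ∈ Ioc U N, f m / m - (∑ m ∈ Ioc U N, f m) / N‖ ≤ K * (1 / (U + 1) - 1 / N) := by
  induction N, hN using Nat.le_induction with
  | base =>
    have h1 : Ioc U (U + 1) = {U + 1} := by
      ext m; simp only [Finset.mem_Ioc, Finset.mem_singleton]; omega
    rw [h1, Finset.sum_singleton, Finset.sum_singleton]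
    simp
  | succ N hN ih =>
    have hNpos : (0 : ℝ) < N := by
      have : 0 < N := by omega
      exact_mod_cast this
    have h1 : ∀ h : ℕ → ℂ, ∑ m ∈ Ioc U (N + 1), h m = ∑ m ∈ Ioc U N, h m + h (N + 1) := by
      intro h
      rw [Finset.sum_Ioc_succ_top (by omega : U ≤ N)]
    rw [h1, h1]
    have h2 : ∑ m ∈ Ioc U N, f m / m + f (N + 1) / ((N + 1 : ℕ) : ℂ) -
        (∑ m ∈ Ioc U N, f m + f (N + 1)) / ((N + 1 : ℕ) : ℂ) =
        (∑ m ∈ Ioc U N, f m / m - (∑ m ∈ Ioc U N, f m) / N) +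
          (∑ m ∈ Ioc U N, f m) * (((1 / (N : ℝ) - 1 / ((N + 1 : ℕ) : ℝ)) : ℝ) : ℂ) := by
      push_cast
      ring
    rw [h2]
    have h3 : 0 ≤ 1 / (N : ℝ) - 1 / ((N + 1 : ℕ) : ℝ) := by
      rw [sub_nonneg]
      apply one_div_le_one_div_of_le hNpos
      push_cast
      linarith
    have h4 : ‖(∑ m ∈ Ioc U N, f m) * (((1 / (N : ℝ) - 1 / ((N + 1 : ℕ) : ℝ)) : ℝ) : ℂ)‖ ≤
        K * (1 / (N : ℝ) - 1 / ((N + 1 : ℕ) : ℝ)) := by
      rw [norm_mul, Complex.norm_real, Real.norm_of_nonneg h3]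
      exact mul_le_mul_of_nonneg_right (hK N) h3
    calc _ ≤ _ := norm_add_le _ _
      _ ≤ K * (1 / (U + 1) - 1 / N) + K * (1 / (N : ℝ) - 1 / ((N + 1 : ℕ) : ℝ)) :=
          add_le_add ih h4
      _ = _ := by ring

theorem abel_bound' (f : ℕ → ℂ) (U : ℕ) (K : ℝ) (hK0 : 0 ≤ K)
    (hK : ∀ n : ℕ, ‖∑ m ∈ Ioc U n, f m‖ ≤ K) (N : ℕ) :
    ‖∑ m ∈ Ioc U N, f m / m‖ ≤ K / (U + 1) := by
  rcases Nat.lt_or_ge U N with h | h
  · have h1 := abel_bound f U K hK N h
    have hNpos : (0 : ℝ) < N := by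
      have : 0 < N := by omega
      exact_mod_cast this
    have h2 : ‖(∑ m ∈ Ioc U N, f m) / (N : ℂ)‖ ≤ K * (1 / N) := by
      rw [norm_div, Complex.norm_natCast, div_eq_mul_one_div]
      exact mul_le_mul_of_nonneg_right (hK N) (by positivity)
    calc ‖∑ m ∈ Ioc U N, f m / m‖
        = ‖(∑ m ∈ Ioc U N, f m / m - (∑ m ∈ Ioc U N, f m) / N) + (∑ m ∈ Ioc U N, f m) / N‖ := by
          congr 1; ring
      _ ≤ K * (1 / (U + 1) - 1 / N) + K * (1 / N) := (norm_add_le _ _).trans (add_le_add h1 h2)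
      _ = K / (U + 1) := by ring
  · rw [Finset.Ioc_eq_empty (by omega)]
    simp only [Finset.sum_empty, norm_zero]
    positivity

/-- The quotient of two distinct primitive characters. -/
theorem exists_quot {q q' : ℕ} [NeZero q] [NeZero q'] (χ : DirichletCharacter ℂ q)
    (χ' : DirichletCharacter ℂ q') (h : χ.IsPrimitive) (h' : χ'.IsPrimitive)
    (hne : (⟨q, χ⟩ : Σ q : ℕ, DirichletCharacter ℂ q) ≠ ⟨q', χ'⟩) :
    ∃ ψ : DirichletCharacter ℂ (q * q'), ψ ≠ 1 ∧
      ∀ m : ℕ, ψ (m : ZMod (q * q')) =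
        χ (m : ZMod q) * (starRingEnd ℂ) (χ' (m : ZMod q')) := by
  have : NeZero (q * q') := ⟨mul_ne_zero (NeZero.ne q) (NeZero.ne q')⟩
  refine ⟨DirichletCharacter.changeLevel (dvd_mul_right q q') χ *
    (DirichletCharacter.changeLevel (dvd_mul_left q' q) χ')⁻¹, ?_, ?_⟩
  · intro h1
    have h2 : DirichletCharacter.changeLevel (dvd_mul_right q q') χ =
        DirichletCharacter.changeLevel (dvd_mul_left q' q) χ' := by
      exact mul_inv_eq_one.1 h1
    have h3 := DirichletCharacter.conductor_changeLevel χ (dvd_mul_right q q')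
    have h4 := DirichletCharacter.conductor_changeLevel χ' (dvd_mul_left q' q)
    rw [h2, h4] at h3
    rw [DirichletCharacter.isPrimitive_def] at h h'
    rw [h, h'] at h3
    subst h3
    apply hne
    have h5 : χ = χ' := DirichletCharacter.changeLevel_injective (dvd_mul_right _ _) h2
    rw [h5]
  · intro m
    rw [MulChar.mul_apply]
    by_cases hm : Nat.Coprime m (q * q')
    · have hu : IsUnit (m : ZMod (q * q')) := (ZMod.isUnit_iff_coprime _ _).2 hm
      obtain ⟨u, hu'⟩ := hu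
      have hc : ((u : ZMod (q * q')).cast : ZMod q) = (m : ZMod q) := by
        rw [hu']
        exact ZMod.cast_natCast (dvd_mul_right _ _) _
      have hc' : ((u : ZMod (q * q')).cast : ZMod q') = (m : ZMod q') := by
        rw [hu']
        exact ZMod.cast_natCast (dvd_mul_left _ _) _
      rw [← hu', MulChar.inv_apply_eq_inv', DirichletCharacter.changeLevel_eq_cast_of_dvd,
        DirichletCharacter.changeLevel_eq_cast_of_dvd, hc, hc']
      congr 1
      have hn : ‖χ' (m : ZMod q')‖ = 1 := by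
        have hm' : Nat.Coprime m q' := Nat.Coprime.coprime_mul_left_right hm
        have := DirichletCharacter.unit_norm_eq_one χ' (ZMod.unitOfCoprime m hm')
        simpa using this
      rw [Complex.inv_def, Complex.normSq_eq_norm_sq, hn]
      simp
    · have hz : DirichletCharacter.changeLevel (dvd_mul_right q q') χ (m : ZMod (q * q')) = 0 :=
        MulChar.map_nonunit _ (fun hu => hm ((ZMod.isUnit_iff_coprime _ _).1 hu))
      rw [hz, zero_mul]
      rw [Nat.coprime_mul_iff_right, not_and_or] at hm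
      rcases hm with hm | hm
      · have hz' : χ (m : ZMod q) = 0 :=
          MulChar.map_nonunit _ (fun hu => hm ((ZMod.isUnit_iff_coprime _ _).1 hu))
        rw [hz', zero_mul]
      · have hz' : χ' (m : ZMod q') = 0 :=
          MulChar.map_nonunit _ (fun hu => hm ((ZMod.isUnit_iff_coprime _ _).1 hu))
        rw [hz', map_zero, mul_zero]

/-- The off-diagonal sums. -/
theorem off_diag {q q' : ℕ} [NeZero q] [NeZero q'] (χ : DirichletCharacter ℂ q)
    (χ' : DirichletCharacter ℂ q') (h : χ.IsPrimitive) (h' : χ'.IsPrimitive)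
    (hne : (⟨q, χ⟩ : Σ q : ℕ, DirichletCharacter ℂ q) ≠ ⟨q', χ'⟩) (U N : ℕ) :
    ‖∑ m ∈ Ioc U N, χ (m : ZMod q) * (starRingEnd ℂ) (χ' (m : ZMod q')) / m‖ ≤
      (q * q' : ℝ) / (U + 1) := by
  have : NeZero (q * q') := ⟨mul_ne_zero (NeZero.ne q) (NeZero.ne q')⟩
  obtain ⟨ψ, hψ, hψ'⟩ := exists_quot χ χ' h h' hne
  have h1 : ∀ n : ℕ, ‖∑ m ∈ Ioc U n, χ (m : ZMod q) * (starRingEnd ℂ) (χ' (m : ZMod q'))‖ ≤
      (q * q' : ℝ) := by
    intro n
    have h2 : ∑ m ∈ Ioc U n, χ (m : ZMod q) * (starRingEnd ℂ) (χ' (m : ZMod q')) =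
        ∑ i ∈ range (n - U), ψ ((U + 1 + i : ℕ) : ZMod (q * q')) := by
      rw [← Finset.Ico_succ_succ_eq_Ioc, Finset.sum_Ico_eq_sum_range]
      rw [show Order.succ n - Order.succ U = n - U by
        simp only [Order.succ_eq_add_one]; omega]
      refine Finset.sum_congr rfl (fun i _ => ?_)
      rw [hψ' (U + 1 + i)]
      rfl
    rw [h2]
    have := char_interval ψ hψ (U + 1) (n - U)
    push_cast at this ⊢
    exact this
  exact abel_bound' _ U _ (by positivity) h1 N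

/-- Duality: an abstract large sieve. -/
theorem dual_sieve {ι : Type*} [DecidableEq ι] (X : Finset ι) (S : Finset ℕ) (e : ι → ℕ → ℂ)
    (w : ℕ → ℝ) (hw : ∀ m, 0 ≤ w m) (W K : ℝ) (hK : 0 ≤ K)
    (he : ∀ x m, ‖e x m‖ ≤ 1) (hW : ∑ m ∈ S, w m ≤ W)
    (hoff : ∀ x ∈ X, ∀ y ∈ X, x ≠ y →
      ‖∑ m ∈ S, e x m * (starRingEnd ℂ) (e y m) * (w m : ℂ)‖ ≤ K) (α : ℕ → ℂ) :
    ∑ x ∈ X, ‖∑ m ∈ S, α m * e x m * (w m : ℂ)‖ ^ 2 ≤
      (W + X.card * K) * ∑ m ∈ S, ‖α m‖ ^ 2 * w m := by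
  set F : ι → ℂ := fun x => ∑ m ∈ S, α m * e x m * (w m : ℂ) with hF
  set c : ι → ℂ := fun x => (starRingEnd ℂ) (F x) with hc
  set T : ℝ := ∑ x ∈ X, ‖F x‖ ^ 2 with hT
  set G : ℕ → ℂ := fun m => ∑ x ∈ X, c x * e x m with hG
  set A : ℝ := ∑ m ∈ S, ‖α m‖ ^ 2 * w m with hA
  have hW0 : 0 ≤ W := (Finset.sum_nonneg (fun m _ => hw m)).trans hW
  have hT0 : 0 ≤ T := Finset.sum_nonneg (fun x _ => by positivity)
  have hA0 : 0 ≤ A := Finset.sum_nonneg (fun m _ => mul_nonneg (by positivity) (hw m))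
  have hcn : ∀ x, ‖c x‖ = ‖F x‖ := fun x => by rw [hc]; exact RCLike.norm_conj _
  -- step 1
  have h1 : (T : ℂ) = ∑ m ∈ S, α m * (w m : ℂ) * G m := by
    have : ∀ x ∈ X, ((‖F x‖ ^ 2 : ℝ) : ℂ) = ∑ m ∈ S, α m * (w m : ℂ) * (c x * e x m) := by
      intro x _
      have h : ((‖F x‖ ^ 2 : ℝ) : ℂ) = c x * F x := by
        rw [hc]
        simp only
        rw [mul_comm, Complex.mul_conj, Complex.normSq_eq_norm_sq]
      rw [h, hF]
      simp only
      rw [Finset.mul_sum]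
      refine Finset.sum_congr rfl (fun m _ => by ring)
    rw [hT]
    push_cast
    have h' : ∀ x ∈ X, ((‖F x‖ : ℂ)) ^ 2 = ∑ m ∈ S, α m * (w m : ℂ) * (c x * e x m) := by
      intro x hx
      rw [← this x hx]
      push_cast
      rfl
    rw [Finset.sum_congr rfl h', Finset.sum_comm]
    refine Finset.sum_congr rfl (fun m _ => ?_)
    rw [hG]
    simp only
    rw [Finset.mul_sum]
  -- step 2
  have h2 : T ≤ ∑ m ∈ S, (‖α m‖ * Real.sqrt (w m)) * (Real.sqrt (w m) * ‖G m‖) := by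
    have h3 : T = ‖(T : ℂ)‖ := by
      rw [Complex.norm_real, Real.norm_of_nonneg hT0]
    rw [h3, h1]
    refine (norm_sum_le _ _).trans (Finset.sum_le_sum (fun m _ => ?_))
    rw [norm_mul, norm_mul, Complex.norm_real, Real.norm_of_nonneg (hw m)]
    have := Real.mul_self_sqrt (hw m)
    calc ‖α m‖ * w m * ‖G m‖ = ‖α m‖ * (Real.sqrt (w m) * Real.sqrt (w m)) * ‖G m‖ := by rw [this]
      _ = _ := by ring
      _ ≤ _ := le_refl _
  have h3 : T ^ 2 ≤ A * ∑ m ∈ S, w m * ‖G m‖ ^ 2 := by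
    have h4 := Finset.sum_mul_sq_le_sq_mul_sq S (fun m => ‖α m‖ * Real.sqrt (w m))
      (fun m => Real.sqrt (w m) * ‖G m‖)
    have h5 : ∑ m ∈ S, (‖α m‖ * Real.sqrt (w m)) ^ 2 = A := by
      refine Finset.sum_congr rfl (fun m _ => ?_)
      rw [mul_pow, Real.sq_sqrt (hw m)]
    have h6 : ∑ m ∈ S, (Real.sqrt (w m) * ‖G m‖) ^ 2 = ∑ m ∈ S, w m * ‖G m‖ ^ 2 := by
      refine Finset.sum_congr rfl (fun m _ => ?_)
      rw [mul_pow, Real.sq_sqrt (hw m)]
    rw [h5, h6] at h4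
    exact (pow_le_pow_left₀ hT0 h2 2).trans h4
  -- step 3
  have h4 : ∑ m ∈ S, w m * ‖G m‖ ^ 2 ≤ (W + X.card * K) * T := by
    have h5 : ((∑ m ∈ S, w m * ‖G m‖ ^ 2 : ℝ) : ℂ) =
        ∑ x ∈ X, ∑ y ∈ X, c x * (starRingEnd ℂ) (c y) *
          ∑ m ∈ S, e x m * (starRingEnd ℂ) (e y m) * (w m : ℂ) := by
      have h6 : ∀ m ∈ S, ((w m * ‖G m‖ ^ 2 : ℝ) : ℂ) =
          ∑ x ∈ X, ∑ y ∈ X, c x * (starRingEnd ℂ) (c y) *
            (e x m * (starRingEnd ℂ) (e y m) * (w m : ℂ)) := by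
        intro m _
        have h7 : ((‖G m‖ ^ 2 : ℝ) : ℂ) = G m * (starRingEnd ℂ) (G m) := by
          rw [Complex.mul_conj, Complex.normSq_eq_norm_sq]
        rw [Complex.ofReal_mul, h7, hG]
        simp only
        rw [map_sum, Finset.sum_mul_sum, Finset.mul_sum]
        refine Finset.sum_congr rfl (fun x _ => ?_)
        rw [Finset.mul_sum]
        refine Finset.sum_congr rfl (fun y _ => ?_)
        rw [map_mul]
        ring
      rw [Complex.ofReal_sum, Finset.sum_congr rfl h6, Finset.sum_comm]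
      refine Finset.sum_congr rfl (fun x _ => ?_)
      rw [Finset.sum_comm]
      refine Finset.sum_congr rfl (fun y _ => ?_)
      rw [Finset.mul_sum]
    have h8 : 0 ≤ ∑ m ∈ S, w m * ‖G m‖ ^ 2 :=
      Finset.sum_nonneg (fun m _ => mul_nonneg (hw m) (by positivity))
    have h9 : ∑ m ∈ S, w m * ‖G m‖ ^ 2 = ‖((∑ m ∈ S, w m * ‖G m‖ ^ 2 : ℝ) : ℂ)‖ := by
      rw [Complex.norm_real, Real.norm_of_nonneg h8]
    rw [h9, h5]
    have h10 : ∀ x ∈ X, ∀ y ∈ X, ‖c x * (starRingEnd ℂ) (c y) *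
          ∑ m ∈ S, e x m * (starRingEnd ℂ) (e y m) * (w m : ℂ)‖ ≤
        (if x = y then ‖c x‖ ^ 2 * W else 0) + ‖c x‖ * ‖c y‖ * K := by
      intro x hx y hy
      rw [norm_mul, norm_mul, RCLike.norm_conj (c y)]
      by_cases hxy : x = y
      · subst hxy
        rw [if_pos rfl]
        have h11 : ‖∑ m ∈ S, e x m * (starRingEnd ℂ) (e x m) * (w m : ℂ)‖ ≤ W := by
          refine (norm_sum_le _ _).trans (le_trans (Finset.sum_le_sum (fun m _ => ?_)) hW)
          rw [norm_mul, norm_mul, RCLike.norm_conj, Complex.norm_real, Real.norm_of_nonneg (hw m)]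
          have := he x m
          have h0 := norm_nonneg (e x m)
          have : ‖e x m‖ * ‖e x m‖ ≤ 1 := by nlinarith
          nlinarith [hw m]
        have h12 : 0 ≤ ‖c x‖ * ‖c x‖ * K := by positivity
        calc ‖c x‖ * ‖c x‖ * ‖∑ m ∈ S, e x m * (starRingEnd ℂ) (e x m) * (w m : ℂ)‖
            ≤ ‖c x‖ * ‖c x‖ * W := mul_le_mul_of_nonneg_left h11 (by positivity)
          _ ≤ ‖c x‖ ^ 2 * W + ‖c x‖ * ‖c x‖ * K := by nlinarith
      · rw [if_neg hxy, zero_add]
        exact mul_le_mul_of_nonneg_left (hoff x hx y hy hxy) (by positivity)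
    calc _ ≤ ∑ x ∈ X, ‖∑ y ∈ X, c x * (starRingEnd ℂ) (c y) *
          ∑ m ∈ S, e x m * (starRingEnd ℂ) (e y m) * (w m : ℂ)‖ := norm_sum_le _ _
      _ ≤ ∑ x ∈ X, ∑ y ∈ X, ‖c x * (starRingEnd ℂ) (c y) *
          ∑ m ∈ S, e x m * (starRingEnd ℂ) (e y m) * (w m : ℂ)‖ :=
          Finset.sum_le_sum (fun x _ => norm_sum_le _ _)
      _ ≤ ∑ x ∈ X, ∑ y ∈ X, ((if x = y then ‖c x‖ ^ 2 * W else 0) + ‖c x‖ * ‖c y‖ * K) :=
          Finset.sum_le_sum (fun x hx => Finset.sum_le_sum (fun y hy => h10 x hx y hy))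
      _ = ∑ x ∈ X, ‖c x‖ ^ 2 * W + (∑ x ∈ X, ‖c x‖) ^ 2 * K := by
          simp only [Finset.sum_add_distrib]
          congr 1
          · refine Finset.sum_congr rfl (fun x hx => ?_)
            rw [Finset.sum_ite_eq, if_pos hx]
          · rw [sq, Finset.sum_mul_sum, Finset.sum_mul]
            refine Finset.sum_congr rfl (fun x _ => ?_)
            rw [Finset.sum_mul]
      _ ≤ T * W + (X.card * T) * K := by
          have h13 : ∑ x ∈ X, ‖c x‖ ^ 2 * W = T * W := by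
            rw [hT, Finset.sum_mul]
            exact Finset.sum_congr rfl (fun x _ => by rw [hcn])
          have h14 : (∑ x ∈ X, ‖c x‖) ^ 2 ≤ X.card * T := by
            have := sq_sum_le_card_mul_sum_sq (s := X) (f := fun x => ‖c x‖)
            refine this.trans (le_of_eq ?_)
            rw [hT]
            congr 1
            exact Finset.sum_congr rfl (fun x _ => by rw [hcn])
          rw [h13]
          have := mul_le_mul_of_nonneg_right h14 hK
          linarith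
      _ = (W + X.card * K) * T := by ring
  -- conclusion
  have h5 : T ^ 2 ≤ ((W + X.card * K) * A) * T := by
    calc T ^ 2 ≤ A * ∑ m ∈ S, w m * ‖G m‖ ^ 2 := h3
      _ ≤ A * ((W + X.card * K) * T) := mul_le_mul_of_nonneg_left h4 hA0
      _ = _ := by ring
  rcases eq_or_lt_of_le hT0 with h0 | h0
  · rw [← h0]
    have : (0 : ℝ) ≤ X.card := Nat.cast_nonneg _
    positivity
  · have : T * T ≤ ((W + X.card * K) * A) * T := by rw [← sq]; exact h5
    exact le_of_mul_le_mul_right this h0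

/-- The number of primitive characters modulo `q`. -/
theorem card_prim_le (q : ℕ) [NeZero q] : (prim q).card ≤ q.totient := by
  classical
  have h1 : (prim q).card ≤ Fintype.card (DirichletCharacter ℂ q) := Finset.card_le_univ _
  have h2 : Nat.card (DirichletCharacter ℂ q) = q.totient :=
    DirichletCharacter.card_eq_totient_of_hasEnoughRootsOfUnity ℂ q
  rw [Nat.card_eq_fintype_card] at h2
  exact h1.trans (le_of_eq (by convert! h2))

theorem sum_inv_le (U N : ℕ) : ∑ m ∈ Ioc U N, (1 : ℝ) / m ≤ Real.log N + 1 := by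
  have h1 : ∑ m ∈ Ioc U N, (1 : ℝ) / m ≤ ∑ m ∈ Icc 1 N, (1 : ℝ) / m := by
    refine Finset.sum_le_sum_of_subset_of_nonneg ?_ (fun m _ _ => by positivity)
    intro m hm
    rw [Finset.mem_Ioc] at hm
    exact Finset.mem_Icc.2 ⟨by omega, hm.2⟩
  have h2 : ∑ m ∈ Icc 1 N, (1 : ℝ) / m = ((harmonic N : ℚ) : ℝ) := by
    rw [harmonic_eq_sum_Icc]
    push_cast
    refine Finset.sum_congr rfl (fun m _ => by rw [one_div])
  rw [h2] at h1
  have := harmonic_le_one_add_log N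
  linarith

/-- Module BV-9: the large sieve with logarithmic weights. -/
theorem tls : TLS := by
  classical
  intro Q U N hQ hU hN α
  set X : Finset (Σ q : ℕ, DirichletCharacter ℂ q) := (Icc 1 Q).sigma (fun q => prim q) with hX
  have hsum : ∑ q ∈ Icc 1 Q, ∑ χ ∈ prim q, ‖∑ m ∈ Ioc U N, α m * χ (m : ZMod q) / m‖ ^ 2 =
      ∑ x ∈ X, ‖∑ m ∈ Ioc U N, α m * x.2 (m : ZMod x.1) * (((1 / m : ℝ)) : ℂ)‖ ^ 2 := by
    rw [hX, Finset.sum_sigma]
    refine Finset.sum_congr rfl (fun q _ => Finset.sum_congr rfl (fun χ _ => ?_))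
    congr 2
    refine Finset.sum_congr rfl (fun m _ => ?_)
    push_cast
    ring
  have hcard : (X.card : ℝ) ≤ (Q : ℝ) ^ 2 := by
    have h1 : X.card ≤ Q ^ 2 := by
      rw [hX, Finset.card_sigma]
      calc ∑ q ∈ Icc 1 Q, (prim q).card ≤ ∑ q ∈ Icc 1 Q, Q := by
            refine Finset.sum_le_sum (fun q hq => ?_)
            rw [Finset.mem_Icc] at hq
            have : NeZero q := ⟨by omega⟩
            exact (card_prim_le q).trans ((Nat.totient_le q).trans hq.2)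
        _ = Q ^ 2 := by simp [sq]
    exact_mod_cast h1
  have hK0 : (0 : ℝ) ≤ (Q : ℝ) ^ 2 / (U + 1) := by positivity
  have hmain := dual_sieve X (Ioc U N) (fun x m => x.2 (m : ZMod x.1)) (fun m => 1 / (m : ℝ))
    (fun m => by positivity) (Real.log N + 1) ((Q : ℝ) ^ 2 / (U + 1)) hK0
    (fun x m => x.2.norm_le_one _) (sum_inv_le U N) (by
      rintro ⟨q, χ⟩ hx ⟨q', χ'⟩ hy hne
      rw [hX, Finset.mem_sigma, Finset.mem_Icc, mem_prim] at hx hy
      simp only at hx hy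
      have hq0 : NeZero q := ⟨by omega⟩
      have hq0' : NeZero q' := ⟨by omega⟩
      have h1 := off_diag χ χ' hx.2 hy.2 hne U N
      have h2 : (q * q' : ℝ) / (U + 1) ≤ (Q : ℝ) ^ 2 / (U + 1) := by
        apply div_le_div_of_nonneg_right _ (by positivity)
        have h3 : (q : ℝ) ≤ Q := by exact_mod_cast hx.1.2
        have h4 : (q' : ℝ) ≤ Q := by exact_mod_cast hy.1.2
        have h5 : (0 : ℝ) ≤ q' := Nat.cast_nonneg _
        have h6 : (0 : ℝ) ≤ Q := Nat.cast_nonneg _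
        nlinarith
      refine le_trans (le_of_eq ?_) (h1.trans h2)
      congr 1
      refine Finset.sum_congr rfl (fun m _ => ?_)
      push_cast
      ring) α
  rw [hsum]
  refine hmain.trans ?_
  have hA : ∑ m ∈ Ioc U N, ‖α m‖ ^ 2 * (1 / (m : ℝ)) = ∑ m ∈ Ioc U N, ‖α m‖ ^ 2 / m :=
    Finset.sum_congr rfl (fun m _ => by ring)
  rw [hA]
  apply mul_le_mul_of_nonneg_right
  · have h1 : (X.card : ℝ) * ((Q : ℝ) ^ 2 / (U + 1)) ≤ 1 := by
      have hUr : (Q : ℝ) ^ 4 ≤ U := by exact_mod_cast hU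
      have hU1 : (0 : ℝ) < (U : ℝ) + 1 := by positivity
      rw [← mul_div_assoc, div_le_one hU1]
      have hQ2 : (0 : ℝ) ≤ (Q : ℝ) ^ 2 := by positivity
      calc (X.card : ℝ) * (Q : ℝ) ^ 2 ≤ (Q : ℝ) ^ 2 * (Q : ℝ) ^ 2 :=
            mul_le_mul_of_nonneg_right hcard hQ2
        _ = (Q : ℝ) ^ 4 := by ring
        _ ≤ (U : ℝ) + 1 := by linarith
    linarith
  · exact Finset.sum_nonneg (fun m _ => by positivity)

end Pool.Agent.Helper96.BV
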