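import Pool.Agent.Helper96.BV.TLS

/-!
# Project BV, module BV-12: Type II sums on average
-/

set_option autoImplicit false

open Finset
open Pool.Agent.Helper18.BV

namespace Pool.Agent.Helper96.BV

/-- Sums over `n ≤ N` of sums over factorizations. -/
theorem sum_anti (N : ℕ) (f : ℕ → ℕ → ℂ) (hf : ∀ d e, N < d * e → f d e = 0) :
    ∑ n ∈ Icc 1 N, ∑ p ∈ n.divisorsAntidiagonal, f p.1 p.2 =
      ∑ d ∈ Icc 1 N, ∑ e ∈ Icc 1 N, f d e := by
  classical
  rw [← Finset.sum_product']
  have h1 : ∑ p ∈ Icc 1 N ×ˢ Icc 1 N, f p.1 p.2 =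
      ∑ p ∈ (Icc 1 N ×ˢ Icc 1 N).filter (fun p => p.1 * p.2 ≤ N), f p.1 p.2 := by
    rw [Finset.sum_filter]
    refine Finset.sum_congr rfl (fun p _ => ?_)
    split_ifs with h
    · rfl
    · exact hf _ _ (not_le.1 h)
  rw [h1]
  rw [← Finset.sum_fiberwise_of_maps_to (s := (Icc 1 N ×ˢ Icc 1 N).filter
    (fun p => p.1 * p.2 ≤ N)) (t := Icc 1 N) (g := fun p => p.1 * p.2) (by
      intro p hp
      rw [Finset.mem_filter, Finset.mem_product, Finset.mem_Icc, Finset.mem_Icc] at hp
      rw [Finset.mem_Icc]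
      exact ⟨Nat.mul_pos (by omega) (by omega), hp.2⟩)]
  refine Finset.sum_congr rfl (fun n hn => ?_)
  rw [Finset.mem_Icc] at hn
  refine Finset.sum_congr ?_ (fun _ _ => rfl)
  ext ⟨d, e⟩
  simp only [Nat.mem_divisorsAntidiagonal, Finset.mem_filter, Finset.mem_product, Finset.mem_Icc]
  constructor
  · rintro ⟨h, h0⟩
    have hd : 0 < d := Nat.pos_of_ne_zero (by rintro rfl; simp at h; omega)
    have he : 0 < e := Nat.pos_of_ne_zero (by rintro rfl; simp at h; omega)
    have hd' : d ≤ n := Nat.le_of_dvd (by omega) ⟨e, h.symm⟩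
    have he' : e ≤ n := Nat.le_of_dvd (by omega) ⟨d, by rw [← h, mul_comm]⟩
    exact ⟨⟨⟨⟨hd, by omega⟩, ⟨he, by omega⟩⟩, by omega⟩, h⟩
  · rintro ⟨_, h⟩
    exact ⟨h, by omega⟩

theorem wt_eq_zero_of_large {g : ℝ → ℝ} (hg : IsWt g) {x : ℝ} (hx : 3 ≤ x) {n : ℕ}
    (hn : ⌊x⌋₊ < n) : wt g x n = 0 := by
  have h1 : x < n := (Nat.floor_lt (by linarith)).1 hn
  have hl : 0 < Real.log x := Real.log_pos (by linarith)
  have h2 : Real.log x < Real.log n := Real.log_lt_log (by linarith) h1
  have h3 : 1 < Real.log n / Real.log x := (one_lt_div hl).2 h2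
  have h4 : g (Real.log n / Real.log x) = 0 := by
    apply image_eq_zero_of_notMem_tsupport
    intro h
    have := (hg.supp h).2
    linarith
  unfold wt
  rw [h4, zero_div]

/-- `SS` of a Dirichlet product as a double sum. -/
theorem SS_mul {g : ℝ → ℝ} (hg : IsWt g) {x : ℝ} (hx : 3 ≤ x) {q : ℕ}
    (χ : DirichletCharacter ℂ q) (a b : ArithmeticFunction ℂ) :
    SS (a * b : ArithmeticFunction ℂ) g x χ =
      ∑ d ∈ Icc 1 ⌊x⌋₊, ∑ e ∈ Icc 1 ⌊x⌋₊, a d * b e *
        (χ (d : ZMod q) * χ (e : ZMod q)) * (wt g x (d * e) : ℂ) := by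
  unfold SS
  rw [← sum_anti ⌊x⌋₊ (fun d e => a d * b e *
        (χ (d : ZMod q) * χ (e : ZMod q)) * (wt g x (d * e) : ℂ)) (by
      intro d e h
      rw [wt_eq_zero_of_large hg hx h]
      simp)]
  refine Finset.sum_congr rfl (fun n hn => ?_)
  rw [ArithmeticFunction.mul_apply, Finset.sum_mul, Finset.sum_mul]
  refine Finset.sum_congr rfl (fun p hp => ?_)
  rw [Nat.mem_divisorsAntidiagonal] at hp
  rw [← hp.1]
  push_cast
  rw [map_mul]

/-- The exponential factor. -/
noncomputable def uu (l : ℝ) (m : ℕ) (t : ℝ) : ℂ :=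
  Complex.exp (t * (Real.log m / l : ℝ) * Complex.I)

theorem norm_uu (l : ℝ) (m : ℕ) (t : ℝ) : ‖uu l m t‖ = 1 := by
  unfold uu
  rw [← Complex.ofReal_mul, Complex.norm_exp_ofReal_mul_I]

theorem continuous_uu (l : ℝ) (m : ℕ) : Continuous (uu l m) := by
  unfold uu
  fun_prop

/-- The linear forms. -/
noncomputable def FF (a : ℕ → ℂ) (l : ℝ) (U N : ℕ) (x : Σ q : ℕ, DirichletCharacter ℂ q)
    (t : ℝ) : ℂ :=
  ∑ m ∈ Ioc U N, (a m * uu l m t) * x.2 (m : ZMod x.1) / m

theorem continuous_FF (a : ℕ → ℂ) (l : ℝ) (U N : ℕ) (x : Σ q : ℕ, DirichletCharacter ℂ q) :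
    Continuous (FF a l U N x) := by
  unfold FF
  refine continuous_finsetSum _ (fun m _ => ?_)
  have := continuous_uu l m
  fun_prop

theorem norm_FF_le (a : ℕ → ℂ) (l : ℝ) (U N : ℕ) (x : Σ q : ℕ, DirichletCharacter ℂ q)
    (t : ℝ) : ‖FF a l U N x t‖ ≤ ∑ m ∈ Ioc U N, ‖a m‖ / m := by
  unfold FF
  refine (norm_sum_le _ _).trans (Finset.sum_le_sum (fun m _ => ?_))
  rw [norm_div, norm_mul, norm_mul, norm_uu, mul_one, Complex.norm_natCast]
  apply div_le_div_of_nonneg_right _ (Nat.cast_nonneg m)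
  have := x.2.norm_le_one (m : ZMod x.1)
  nlinarith [norm_nonneg (a m)]

theorem sq_FF_le (h1 : TLS) {Q U N : ℕ} (hQ : 1 ≤ Q) (hU : Q ^ 4 ≤ U) (hN : U ≤ N)
    (a : ℕ → ℂ) (l : ℝ) (K : ℝ) (ha : ∀ n ∈ Ioc U N, ‖a n‖ ≤ K) (t : ℝ) :
    ∑ x ∈ (Icc 1 Q).sigma (fun q => prim q), ‖FF a l U N x t‖ ^ 2 ≤
      (Real.log N + 2) * (K ^ 2 * (Real.log N + 1)) := by
  have h2 := h1 Q U N hQ hU hN (fun m => a m * uu l m t)
  rw [Finset.sum_sigma]
  refine h2.trans ?_
  have hl : 0 ≤ Real.log N := Real.log_natCast_nonneg N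
  apply mul_le_mul_of_nonneg_left _ (by linarith)
  have h3 : ∑ m ∈ Ioc U N, ‖a m * uu l m t‖ ^ 2 / m ≤ ∑ m ∈ Ioc U N, K ^ 2 * (1 / m) := by
    refine Finset.sum_le_sum (fun m hm => ?_)
    rw [norm_mul, norm_uu, mul_one, div_eq_mul_one_div]
    exact mul_le_mul_of_nonneg_right (pow_le_pow_left₀ (norm_nonneg _) (ha m hm) 2) (by positivity)
  refine h3.trans ?_
  rw [← Finset.mul_sum]
  exact mul_le_mul_of_nonneg_left (sum_inv_le U N) (by positivity)

/-- Module BV-12. -/
theorem typeTwo (h1 : TLS) (h2 : FourierRep) : TypeTwo := by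
  classical
  intro g hg
  have hcs : HasCompactSupport g :=
    IsCompact.of_isClosed_subset isCompact_Icc (isClosed_tsupport _)
      (hg.supp.trans Set.Ioo_subset_Icc_self)
  obtain ⟨h, hc, hint, hrep⟩ := h2 g hg.smooth hcs
  have hint0 : MeasureTheory.Integrable (fun t : ℝ => ‖h t‖) := by
    have := hint 0
    simpa using this
  have hinth : MeasureTheory.Integrable h := by
    rwa [MeasureTheory.integrable_norm_iff hc.aestronglyMeasurable] at hint0
  set H : ℝ := ∫ t, ‖h t‖ with hH
  have hH0 : 0 ≤ H := MeasureTheory.integral_nonneg (fun t => norm_nonneg _)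
  refine ⟨6 * H + 1, by positivity, ?_⟩
  intro x hx Q U V hQ hU hV a b ha hb ha1 hb1
  set N := ⌊x⌋₊ with hN
  set l := Real.log x with hl
  have hl1 : 1 ≤ l := by
    rw [hl, Real.le_log_iff_exp_le (by linarith)]
    have := Real.exp_one_lt_d9
    linarith
  have hN3 : 3 ≤ N := Nat.le_floor (by simpa using hx)
  have hNx : (N : ℝ) ≤ x := Nat.floor_le (by linarith)
  have hlN : Real.log N ≤ l := Real.log_le_log (by
    have : 0 < N := by omega
    exact_mod_cast this) hNx
  have hlN0 : 0 ≤ Real.log N := Real.log_natCast_nonneg N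
  -- the double sum
  have hSS : ∀ (q : ℕ) (χ : DirichletCharacter ℂ q), SS (a * b : ArithmeticFunction ℂ) g x χ =
      ∑ d ∈ Ioc U N, ∑ e ∈ Ioc V N, a d * b e *
        (χ (d : ZMod q) * χ (e : ZMod q)) * (wt g x (d * e) : ℂ) := by
    intro q χ
    rw [SS_mul hg hx]
    symm
    have hsub : ∀ W : ℕ, Ioc W N ⊆ Icc 1 N := by
      intro W m hm
      rw [Finset.mem_Ioc] at hm
      exact Finset.mem_Icc.2 ⟨by omega, hm.2⟩
    have h3 : ∀ d, ∑ e ∈ Ioc V N, a d * b e *
        (χ (d : ZMod q) * χ (e : ZMod q)) * (wt g x (d * e) : ℂ) =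
        ∑ e ∈ Icc 1 N, a d * b e *
        (χ (d : ZMod q) * χ (e : ZMod q)) * (wt g x (d * e) : ℂ) := by
      intro d
      refine Finset.sum_subset (hsub V) (fun e he he' => ?_)
      rw [Finset.mem_Icc] at he
      rw [Finset.mem_Ioc, not_and_or] at he'
      rw [hb e (by omega)]
      simp
    rw [Finset.sum_congr rfl (fun d _ => h3 d)]
    refine Finset.sum_subset (hsub U) (fun d hd hd' => ?_)
    rw [Finset.mem_Icc] at hd
    rw [Finset.mem_Ioc, not_and_or] at hd'
    refine Finset.sum_eq_zero (fun e _ => ?_)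
    rw [ha d (by omega)]
    simp
  by_cases hUV : U ≤ N ∧ V ≤ N
  · obtain ⟨hUN, hVN⟩ := hUV
    -- integral representation
    have hI : ∀ y : (Σ q : ℕ, DirichletCharacter ℂ q), SS (a * b : ArithmeticFunction ℂ) g x y.2 =
        ∫ t, h t * (FF a l U N y t * FF b l V N y t) := by
      intro y
      rw [hSS]
      have h3 : ∀ d ∈ Ioc U N, ∀ e ∈ Ioc V N, a d * b e *
          (y.2 (d : ZMod y.1) * y.2 (e : ZMod y.1)) * (wt g x (d * e) : ℂ) =
          ∫ t, h t * ((a d * uu l d t) * y.2 (d : ZMod y.1) / d *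
            ((b e * uu l e t) * y.2 (e : ZMod y.1) / e)) := by
        intro d hd e he
        rw [Finset.mem_Ioc] at hd he
        have hd0 : (d : ℝ) ≠ 0 := by
          have : 0 < d := by omega
          exact_mod_cast this.ne'
        have he0 : (e : ℝ) ≠ 0 := by
          have : 0 < e := by omega
          exact_mod_cast this.ne'
        have h4 : (wt g x (d * e) : ℂ) = (∫ t : ℝ, h t * (uu l d t * uu l e t)) / (d * e) := by
          unfold wt
          push_cast
          rw [hrep]
          congr 1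
          refine MeasureTheory.integral_congr_ae (Filter.Eventually.of_forall (fun t => ?_))
          simp only
          congr 1
          unfold uu
          rw [← Complex.exp_add]
          congr 1
          push_cast
          rw [Real.log_mul hd0 he0]
          push_cast
          ring
        rw [h4]
        rw [mul_div_assoc', ← MeasureTheory.integral_const_mul, ← MeasureTheory.integral_div]
        refine MeasureTheory.integral_congr_ae (Filter.Eventually.of_forall (fun t => ?_))
        simp only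
        ring
      have hint2 : ∀ d e : ℕ, MeasureTheory.Integrable (fun t => h t *
          ((a d * uu l d t) * y.2 (d : ZMod y.1) / d *
            ((b e * uu l e t) * y.2 (e : ZMod y.1) / e))) := by
        intro d e
        have h5 : MeasureTheory.Integrable (fun t => (a d * y.2 (d : ZMod y.1) / d *
            (b e * y.2 (e : ZMod y.1) / e)) * (h t * (uu l d t * uu l e t))) := by
          apply MeasureTheory.Integrable.const_mul
          refine MeasureTheory.Integrable.mono hinth ?_ ?_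
          · have := continuous_uu l d
            have := continuous_uu l e
            exact (by fun_prop : Continuous (fun t => h t * (uu l d t * uu l e t))).aestronglyMeasurable
          · refine Filter.Eventually.of_forall (fun t => ?_)
            rw [norm_mul, norm_mul, norm_uu, norm_uu]
            simp
        refine h5.congr (Filter.Eventually.of_forall (fun t => ?_))
        simp only
        ring
      rw [Finset.sum_congr rfl (fun d hd => Finset.sum_congr rfl (fun e he => h3 d hd e he))]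
      rw [Finset.sum_congr rfl (fun d _ =>
        (MeasureTheory.integral_finsetSum (Ioc V N) (fun e _ => hint2 d e)).symm)]
      rw [← MeasureTheory.integral_finsetSum]
      · refine MeasureTheory.integral_congr_ae (Filter.Eventually.of_forall (fun t => ?_))
        simp only
        unfold FF
        rw [Finset.sum_mul_sum, Finset.mul_sum]
        refine Finset.sum_congr rfl (fun d _ => ?_)
        rw [Finset.mul_sum]
      · intro d _
        exact MeasureTheory.integrable_finsetSum _ (fun e _ => hint2 d e)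
    -- the main estimate
    set X : Finset (Σ q : ℕ, DirichletCharacter ℂ q) := (Icc 1 Q).sigma (fun q => prim q) with hX
    have hF2 : ∀ t, ∑ y ∈ X, ‖FF a l U N y t‖ ^ 2 ≤ (l + 2) * (l + 1) := by
      intro t
      refine (sq_FF_le h1 hQ hU hUN a l 1 (fun n _ => ha1 n) t).trans ?_
      nlinarith
    have hG2 : ∀ t, ∑ y ∈ X, ‖FF b l V N y t‖ ^ 2 ≤ (l + 2) * (l + 1) * l ^ 2 := by
      intro t
      refine (sq_FF_le h1 hQ hV hVN b l l (fun n hn => hb1 n ?_) t).trans ?_
      · rw [Finset.mem_Ioc] at hn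
        have : (n : ℝ) ≤ N := by exact_mod_cast hn.2
        linarith
      · have h6 : (Real.log N + 2) * (Real.log N + 1) ≤ (l + 2) * (l + 1) := by nlinarith
        have h7 : (0 : ℝ) ≤ l ^ 2 := by positivity
        nlinarith [mul_le_mul_of_nonneg_right h6 h7]
    have hFG : ∀ t, ∑ y ∈ X, ‖FF a l U N y t‖ * ‖FF b l V N y t‖ ≤ 6 * l ^ 3 := by
      intro t
      have h6 := Finset.sum_mul_sq_le_sq_mul_sq X (fun y => ‖FF a l U N y t‖)
        (fun y => ‖FF b l V N y t‖)
      have h7 : (∑ y ∈ X, ‖FF a l U N y t‖ * ‖FF b l V N y t‖) ^ 2 ≤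
          ((l + 2) * (l + 1) * l) ^ 2 := by
        calc _ ≤ _ := h6
          _ ≤ ((l + 2) * (l + 1)) * ((l + 2) * (l + 1) * l ^ 2) :=
              mul_le_mul (hF2 t) (hG2 t) (Finset.sum_nonneg (fun _ _ => by positivity))
                (by positivity)
          _ = _ := by ring
      have h8 := abs_le_of_sq_le_sq h7 (by positivity)
      refine (le_abs_self _).trans (h8.trans ?_)
      have h9 : (l + 2) * (l + 1) ≤ (3 * l) * (2 * l) := by nlinarith
      nlinarith
    have hintF : ∀ y, MeasureTheory.Integrable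
        (fun t => ‖h t‖ * (‖FF a l U N y t‖ * ‖FF b l V N y t‖)) := by
      intro y
      refine MeasureTheory.Integrable.mono' (hint0.mul_const
        ((∑ m ∈ Ioc U N, ‖a m‖ / m) * (∑ m ∈ Ioc V N, ‖b m‖ / m))) ?_ ?_
      · have := continuous_FF a l U N y
        have := continuous_FF b l V N y
        exact (by fun_prop : Continuous (fun t => ‖h t‖ *
          (‖FF a l U N y t‖ * ‖FF b l V N y t‖))).aestronglyMeasurable
      · refine Filter.Eventually.of_forall (fun t => ?_)
        rw [Real.norm_of_nonneg (by positivity)]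
        apply mul_le_mul_of_nonneg_left _ (norm_nonneg _)
        exact mul_le_mul (norm_FF_le _ _ _ _ _ _) (norm_FF_le _ _ _ _ _ _) (norm_nonneg _)
          (Finset.sum_nonneg (fun _ _ => by positivity))
    have hS : ∑ q ∈ Icc 1 Q, ∑ χ ∈ prim q, ‖SS (a * b : ArithmeticFunction ℂ) g x χ‖ =
        ∑ y ∈ X, ‖SS (a * b : ArithmeticFunction ℂ) g x y.2‖ := by
      rw [hX, Finset.sum_sigma]
    rw [hS]
    calc ∑ y ∈ X, ‖SS (a * b : ArithmeticFunction ℂ) g x y.2‖
        ≤ ∑ y ∈ X, ∫ t, ‖h t‖ * (‖FF a l U N y t‖ * ‖FF b l V N y t‖) := by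
          refine Finset.sum_le_sum (fun y _ => ?_)
          rw [hI y]
          refine (MeasureTheory.norm_integral_le_integral_norm _).trans (le_of_eq ?_)
          refine MeasureTheory.integral_congr_ae (Filter.Eventually.of_forall (fun t => ?_))
          simp only
          rw [norm_mul, norm_mul]
      _ = ∫ t, ∑ y ∈ X, ‖h t‖ * (‖FF a l U N y t‖ * ‖FF b l V N y t‖) :=
          (MeasureTheory.integral_finsetSum X (fun y _ => hintF y)).symm
      _ ≤ ∫ t, ‖h t‖ * (6 * l ^ 3) := by
          apply MeasureTheory.integral_mono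
          · exact MeasureTheory.integrable_finsetSum _ (fun y _ => hintF y)
          · exact hint0.mul_const _
          · intro t
            simp only
            rw [← Finset.mul_sum]
            exact mul_le_mul_of_nonneg_left (hFG t) (norm_nonneg _)
      _ = H * (6 * l ^ 3) := by rw [MeasureTheory.integral_mul_const]
      _ ≤ (6 * H + 1) * l ^ 3 := by nlinarith [pow_nonneg (by linarith : (0 : ℝ) ≤ l) 3]
  · have hz : ∀ (q : ℕ) (χ : DirichletCharacter ℂ q),
        SS (a * b : ArithmeticFunction ℂ) g x χ = 0 := by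
      intro q χ
      rw [hSS]
      rw [not_and_or] at hUV
      rcases hUV with h3 | h3
      · rw [Finset.Ioc_eq_empty (by omega), Finset.sum_empty]
      · refine Finset.sum_eq_zero (fun d _ => ?_)
        rw [Finset.Ioc_eq_empty (by omega), Finset.sum_empty]
    have : ∑ q ∈ Icc 1 Q, ∑ χ ∈ prim q, ‖SS (a * b : ArithmeticFunction ℂ) g x χ‖ = 0 := by
      refine Finset.sum_eq_zero (fun q _ => Finset.sum_eq_zero (fun χ _ => ?_))
      rw [hz, norm_zero]
    rw [this]
    positivity

end Pool.Agent.Helper96.BV
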